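import Pool.Agent.W388.TW.Parts
import Pool.Agent.W192.CY.Stk
import Pool.Agent.W378.CY.AFE

/-!
# CYK-AFE : the central value of the twisted L-function, weight `2 r`
-/

set_option autoImplicit false

open Complex Filter Topology Set MeasureTheory

namespace Pool.Agent.W45.CYK

open Pool.Agent.W108.TW
open Pool.Agent.W192.CY (Vk VW K_VK)

/-! ### the weight function -/

lemma geo2 (r : ℕ) : ∑ j ∈ Finset.range r, (2 : ℝ) ^ j ≤ 2 ^ r := by
  induction r with
  | zero => simp
  | succ r ih =>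
    rw [Finset.sum_range_succ, pow_succ]
    linarith

lemma vk_bound (r : ℕ) (x : ℝ) (hx : 0 ≤ x) : |Vk r x| ≤ 2 ^ r * Real.exp (-(x / 2)) := by
  unfold Vk
  have h1 : 0 ≤ ∑ j ∈ Finset.range r, x ^ j / (j.factorial : ℝ) :=
    Finset.sum_nonneg fun j _ => by positivity
  rw [abs_of_nonneg (mul_nonneg (Real.exp_pos _).le h1)]
  have h2 : ∑ j ∈ Finset.range r, x ^ j / (j.factorial : ℝ) ≤ 2 ^ r * Real.exp (x / 2) := by
    have h3 : ∀ j ∈ Finset.range r, x ^ j / (j.factorial : ℝ) ≤ 2 ^ j * Real.exp (x / 2) := by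
      intro j _
      have h4 := Real.pow_div_factorial_le_exp (x / 2) (by positivity) j
      rw [div_pow] at h4
      calc x ^ j / (j.factorial : ℝ) = 2 ^ j * (x ^ j / 2 ^ j / (j.factorial : ℝ)) := by
            field_simp
        _ ≤ _ := mul_le_mul_of_nonneg_left h4 (by positivity)
    refine (Finset.sum_le_sum h3).trans ?_
    rw [← Finset.sum_mul]
    exact mul_le_mul_of_nonneg_right (geo2 r) (Real.exp_pos _).le
  calc Real.exp (-x) * ∑ j ∈ Finset.range r, x ^ j / (j.factorial : ℝ)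
      ≤ Real.exp (-x) * (2 ^ r * Real.exp (x / 2)) :=
        mul_le_mul_of_nonneg_left h2 (Real.exp_pos _).le
    _ = 2 ^ r * (Real.exp (-x) * Real.exp (x / 2)) := by ring
    _ = 2 ^ r * Real.exp (-(x / 2)) := by
        rw [← Real.exp_add]
        congr 2
        ring

theorem vk : K_VK := by
  intro r hr
  refine ⟨2 ^ r, by positivity, vk_bound r, ?_⟩
  intro x hx
  have h1 : Vk r x ≤ 1 := by
    unfold Vk
    have := Real.sum_le_exp_of_nonneg hx r
    calc Real.exp (-x) * ∑ j ∈ Finset.range r, x ^ j / (j.factorial : ℝ)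
        ≤ Real.exp (-x) * Real.exp x := mul_le_mul_of_nonneg_left this (Real.exp_pos _).le
      _ = 1 := by rw [← Real.exp_add]; simp
  have h2 : Real.exp (-x) ≤ Vk r x := by
    unfold Vk
    have h3 : (1 : ℝ) ≤ ∑ j ∈ Finset.range r, x ^ j / (j.factorial : ℝ) := by
      have := Finset.single_le_sum (f := fun j : ℕ => x ^ j / (j.factorial : ℝ))
        (s := Finset.range r) (fun j _ => by positivity) (Finset.mem_range.2 hr)
      simpa using this
    have := mul_le_mul_of_nonneg_left h3 (Real.exp_pos (-x)).le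
    rwa [mul_one] at this
  have h4 : 1 - x ≤ Real.exp (-x) := by
    have := Real.add_one_le_exp (-x)
    linarith
  have h5 : (1 : ℝ) ≤ 2 ^ r := one_le_pow₀ (by norm_num)
  rw [abs_of_nonneg (by linarith)]
  nlinarith

lemma vk_succ (s : ℕ) (x : ℝ) : Vk (s + 1) x = Vk s x + Real.exp (-x) * (x ^ s / (s.factorial : ℝ)) := by
  unfold Vk
  rw [Finset.sum_range_succ, mul_add]

lemma vk_deriv (s : ℕ) (x : ℝ) :
    HasDerivAt (Vk (s + 1)) (-(Real.exp (-x) * (x ^ s / (s.factorial : ℝ)))) x := by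
  have hexp : HasDerivAt (fun x : ℝ => Real.exp (-x)) (-Real.exp (-x)) x := by
    simpa using (hasDerivAt_neg x).exp
  induction s with
  | zero =>
    have h1 : Vk (0 + 1) = fun x : ℝ => Real.exp (-x) := by
      funext y
      simp [Vk]
    rw [h1]
    simpa using hexp
  | succ s ih =>
    have h1 : Vk (s + 1 + 1) = fun y => Vk (s + 1) y +
        Real.exp (-y) * (y ^ (s + 1) / ((s + 1).factorial : ℝ)) := by
      funext y
      exact vk_succ (s + 1) y
    rw [h1]
    have h2 : HasDerivAt (fun y : ℝ => y ^ (s + 1) / ((s + 1).factorial : ℝ))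
        (((s + 1 : ℕ) : ℝ) * x ^ s / ((s + 1).factorial : ℝ)) x := by
      simpa using (hasDerivAt_pow (s + 1) x).div_const ((s + 1).factorial : ℝ)
    have h3 := ih.add (hexp.mul h2)
    refine h3.congr_deriv ?_
    have hf : ((s + 1).factorial : ℝ) = (s + 1) * (s.factorial : ℝ) := by
      rw [Nat.factorial_succ]
      push_cast
      ring
    have hs0 : (s.factorial : ℝ) ≠ 0 := by positivity
    have hs1 : ((s : ℝ) + 1) ≠ 0 := by positivity
    rw [hf]
    push_cast
    field_simp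
    ring

lemma vk_int (r : ℕ) (hr : 1 ≤ r) (a t0 : ℝ) (ha : 0 < a) (ht0 : 0 ≤ t0) :
    IntegrableOn (fun t : ℝ => t ^ (r - 1) * Real.exp (-a * t)) (Ioi t0) ∧
    ∫ t in Ioi t0, t ^ (r - 1) * Real.exp (-a * t) =
      ((r - 1).factorial : ℝ) / a ^ r * Vk r (a * t0) := by
  obtain ⟨s, rfl⟩ : ∃ s, r = s + 1 := ⟨r - 1, by omega⟩
  rw [Nat.add_sub_cancel]
  have hd : ∀ t ∈ Ici t0, HasDerivAt (fun t : ℝ => -((s.factorial : ℝ) / a ^ (s + 1)) *
      Vk (s + 1) (a * t)) (t ^ s * Real.exp (-a * t)) t := by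
    intro t _
    have h1 : HasDerivAt (fun t : ℝ => a * t) a t := by
      simpa using (hasDerivAt_id t).const_mul a
    have h2 := ((vk_deriv s (a * t)).comp t h1).const_mul (-((s.factorial : ℝ) / a ^ (s + 1)))
    refine h2.congr_deriv ?_
    have hs0 : (s.factorial : ℝ) ≠ 0 := by positivity
    rw [neg_mul a t, mul_pow, pow_succ]
    field_simp
  have hpos : ∀ t ∈ Ioi t0, 0 ≤ t ^ s * Real.exp (-a * t) := by
    intro t (ht : t0 < t)
    have : 0 ≤ t := by linarith
    positivity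
  have hlim : Tendsto (fun t : ℝ => -((s.factorial : ℝ) / a ^ (s + 1)) * Vk (s + 1) (a * t))
      atTop (𝓝 0) := by
    have h1 : Tendsto (fun t : ℝ => Vk (s + 1) (a * t)) atTop (𝓝 0) := by
      have h2 : Tendsto (fun t : ℝ => 2 ^ (s + 1) * Real.exp (-(a * t / 2))) atTop (𝓝 0) := by
        have h3 : Tendsto (fun t : ℝ => Real.exp (-(a * t / 2))) atTop (𝓝 0) := by
          apply Real.tendsto_exp_neg_atTop_nhds_zero.comp
          have h4 : Tendsto (fun t : ℝ => (a / 2) * t) atTop atTop :=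
            tendsto_id.const_mul_atTop (by positivity)
          refine h4.congr fun t => ?_
          ring
        simpa using h3.const_mul (2 ^ (s + 1) : ℝ)
      rw [tendsto_zero_iff_abs_tendsto_zero]
      refine squeeze_zero' (Eventually.of_forall fun t => abs_nonneg _) ?_ h2
      filter_upwards [eventually_ge_atTop 0] with t ht
      exact vk_bound (s + 1) (a * t) (by positivity)
    simpa using h1.const_mul (-((s.factorial : ℝ) / a ^ (s + 1)))
  refine ⟨integrableOn_Ioi_deriv_of_nonneg' hd hpos hlim, ?_⟩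
  rw [integral_Ioi_of_hasDerivAt_of_nonneg' hd hpos hlim]
  ring

/-! ### the Mellin transform -/

/-- termwise integration -/
lemma int_Th {b : ℕ → ℂ} {m C : ℝ} (hb0 : b 0 = 0)
    (hb : ∀ n : ℕ, 1 ≤ n → ‖b n‖ ≤ C * (n : ℝ) ^ m) {c : ℝ} (hc : 0 < c) {t0 : ℝ} (ht : 0 < t0)
    {r : ℕ} (hr : 1 ≤ r) :
    ∫ t in Ioi t0, (t : ℂ) ^ (r - 1) * Th b c t =
      ∑' n : ℕ, b n * ((((r - 1).factorial : ℝ) / (c * n) ^ r * Vk r (c * n * t0) : ℝ) : ℂ) := by
  unfold Th
  have hint : ∀ n : ℕ, Integrable (fun t : ℝ => (t : ℂ) ^ (r - 1) *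
      (b n * (Real.exp (-(c * n) * t) : ℂ))) (volume.restrict (Ioi t0)) := by
    intro n
    rcases Nat.eq_zero_or_pos n with rfl | hn
    · rw [hb0]
      simp only [zero_mul, mul_zero]
      exact integrable_zero _ _ _
    · have hn' : (0 : ℝ) < n := by exact_mod_cast hn
      have h0 : 0 < c * n := by positivity
      have h1 := (vk_int r hr (c * n) t0 h0 ht.le).1
      refine ((Integrable.ofReal (𝕜 := ℂ) h1).const_mul (b n)).congr ?_
      refine Eventually.of_forall fun t => ?_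
      simp only [Complex.coe_algebraMap, RCLike.ofReal_mul, RCLike.ofReal_pow]
      push_cast
      ring
  have hnorm : ∀ n : ℕ, ∫ t in Ioi t0, ‖(t : ℂ) ^ (r - 1) *
      (b n * (Real.exp (-(c * n) * t) : ℂ))‖ ≤
      |C| * (((r - 1).factorial : ℝ) / c ^ r * 2 ^ r) *
        ((n : ℝ) ^ m * Real.exp (-((c * t0 / 2) * n))) := by
    intro n
    rcases Nat.eq_zero_or_pos n with rfl | hn
    · rw [hb0]
      simp only [zero_mul, mul_zero, norm_zero, integral_zero]
      positivity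
    · have hn' : (1 : ℝ) ≤ n := by exact_mod_cast hn
      have h0 : 0 < c * n := by positivity
      have e1 : ∀ t ∈ Ioi t0, ‖(t : ℂ) ^ (r - 1) * (b n * (Real.exp (-(c * n) * t) : ℂ))‖ =
          ‖b n‖ * (t ^ (r - 1) * Real.exp (-(c * n) * t)) := by
        intro t (ht' : t0 < t)
        rw [norm_mul, norm_mul, norm_pow, Complex.norm_real, Complex.norm_real, Real.norm_eq_abs,
          Real.norm_eq_abs, Real.abs_exp, abs_of_pos (by linarith)]
        ring
      rw [setIntegral_congr_fun measurableSet_Ioi e1, integral_const_mul,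
        (vk_int r hr (c * n) t0 h0 ht.le).2]
      have h1 : ‖b n‖ ≤ |C| * (n : ℝ) ^ m :=
        (hb n hn).trans (mul_le_mul_of_nonneg_right (le_abs_self C) (by positivity))
      have h2 : ((r - 1).factorial : ℝ) / (c * n) ^ r * Vk r (c * n * t0) ≤
          ((r - 1).factorial : ℝ) / c ^ r * 2 ^ r * Real.exp (-((c * t0 / 2) * n)) := by
        have h3 : Vk r (c * n * t0) ≤ 2 ^ r * Real.exp (-((c * t0 / 2) * n)) := by
          refine (le_abs_self _).trans ((vk_bound r (c * n * t0) (by positivity)).trans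
            (le_of_eq ?_))
          congr 3
          ring
        have h4 : ((r - 1).factorial : ℝ) / (c * n) ^ r ≤ ((r - 1).factorial : ℝ) / c ^ r := by
          apply div_le_div_of_nonneg_left (by positivity) (by positivity)
          exact pow_le_pow_left₀ hc.le (by nlinarith) r
        calc _ ≤ ((r - 1).factorial : ℝ) / (c * n) ^ r * (2 ^ r * Real.exp (-((c * t0 / 2) * n))) :=
              mul_le_mul_of_nonneg_left h3 (by positivity)
          _ ≤ ((r - 1).factorial : ℝ) / c ^ r * (2 ^ r * Real.exp (-((c * t0 / 2) * n))) :=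
              mul_le_mul_of_nonneg_right h4 (by positivity)
          _ = _ := by ring
      calc ‖b n‖ * (((r - 1).factorial : ℝ) / (c * n) ^ r * Vk r (c * n * t0)) ≤
            ‖b n‖ * (((r - 1).factorial : ℝ) / c ^ r * 2 ^ r *
              Real.exp (-((c * t0 / 2) * n))) := mul_le_mul_of_nonneg_left h2 (norm_nonneg _)
        _ ≤ (|C| * (n : ℝ) ^ m) * (((r - 1).factorial : ℝ) / c ^ r * 2 ^ r *
              Real.exp (-((c * t0 / 2) * n))) := mul_le_mul_of_nonneg_right h1 (by positivity)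
        _ = _ := by ring
  have hsum : Summable fun n : ℕ => ∫ t in Ioi t0, ‖(t : ℂ) ^ (r - 1) *
      (b n * (Real.exp (-(c * n) * t) : ℂ))‖ := by
    refine Summable.of_nonneg_of_le (fun n => integral_nonneg fun t => norm_nonneg _) hnorm ?_
    exact (summable_maj (c * t0 / 2) (by positivity) m).mul_left _
  have e0 : ∀ t : ℝ, (t : ℂ) ^ (r - 1) * ∑' n : ℕ, b n * (Real.exp (-(c * n) * t) : ℂ) =
      ∑' n : ℕ, (t : ℂ) ^ (r - 1) * (b n * (Real.exp (-(c * n) * t) : ℂ)) := by
    intro t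
    rw [tsum_mul_left]
  simp only [e0]
  rw [← integral_tsum_of_summable_integral_norm hint hsum]
  refine tsum_congr fun n => ?_
  rcases Nat.eq_zero_or_pos n with rfl | hn
  · rw [hb0]; simp
  · have hn' : (0 : ℝ) < n := by exact_mod_cast hn
    have h0 : 0 < c * n := by positivity
    rw [← (vk_int r hr (c * n) t0 h0 ht.le).2]
    have e2 : ∀ t : ℝ, (t : ℂ) ^ (r - 1) * (b n * (Real.exp (-(c * n) * t) : ℂ)) =
        b n * ((t ^ (r - 1) * Real.exp (-(c * n) * t) : ℝ) : ℂ) := by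
      intro t
      push_cast
      ring
    simp only [e2]
    rw [integral_const_mul, integral_complex_ofReal]

/-- the lower part of the integral -/
lemma int_low (g g' : ℝ → ℂ) (w : ℂ) (t0 : ℝ) (ht : 0 < t0) (r : ℕ) (hr : 1 ≤ r)
    (h : ∀ t : ℝ, 0 < t → g (t⁻¹) = w * (t : ℂ) ^ (2 * (r : ℤ)) * g' t) :
    ∫ t in Ioc 0 t0, (t : ℂ) ^ (r - 1) * g t = w * ∫ t in Ioi t0⁻¹, (t : ℂ) ^ (r - 1) * g' t := by
  have hr1 : ((r : ℂ) - 1) = ((r - 1 : ℕ) : ℂ) := by
    rw [Nat.cast_sub hr, Nat.cast_one]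
  have h1 : ∫ t in Ioc 0 t0, (t : ℂ) ^ (r - 1) * g t = mellin ((Iic t0).indicator g) r := by
    rw [mellin]
    have e0 : ∀ t : ℝ, (t : ℂ) ^ ((r : ℂ) - 1) • (Iic t0).indicator g t =
        (Iic t0).indicator (fun t : ℝ => (t : ℂ) ^ (r - 1) * g t) t := by
      intro t
      rw [hr1, Complex.cpow_natCast]
      by_cases ht' : t ∈ Iic t0
      · rw [indicator_of_mem ht', indicator_of_mem ht', smul_eq_mul]
      · rw [indicator_of_notMem ht', indicator_of_notMem ht', smul_zero]
    simp only [e0]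
    rw [setIntegral_indicator measurableSet_Iic]
    rfl
  have h2 : mellin ((Iic t0).indicator g) r =
      mellin (fun t => (Iic t0).indicator g t⁻¹) (-(r : ℂ)) := by
    rw [mellin_comp_inv, neg_neg]
  rw [h1, h2, mellin]
  have h3 : ∀ t ∈ Ioi (0 : ℝ), (t : ℂ) ^ (-(r : ℂ) - 1) • (Iic t0).indicator g t⁻¹ =
      (Ici t0⁻¹).indicator (fun t : ℝ => w * ((t : ℂ) ^ (r - 1) * g' t)) t := by
    intro t (ht' : 0 < t)
    by_cases hh : t⁻¹ ≤ t0
    · have hh' : t0⁻¹ ≤ t := inv_le_of_inv_le₀ ht' hh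
      rw [indicator_of_mem (show t⁻¹ ∈ Iic t0 from hh), indicator_of_mem (show t ∈ Ici t0⁻¹ from hh')]
      rw [h t ht', smul_eq_mul]
      have htc : (t : ℂ) ≠ 0 := by exact_mod_cast ht'.ne'
      have e1 : (t : ℂ) ^ (-(r : ℂ) - 1) = (t : ℂ) ^ (-(r : ℤ) - 1) := by
        rw [show (-(r : ℂ) - 1) = ((-(r : ℤ) - 1 : ℤ) : ℂ) by push_cast; ring, Complex.cpow_intCast]
      have e2 : (t : ℂ) ^ (-(r : ℤ) - 1) * (t : ℂ) ^ (2 * (r : ℤ)) = (t : ℂ) ^ (r - 1) := by
        rw [← zpow_add₀ htc, ← zpow_natCast]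
        congr 1
        omega
      rw [e1, ← e2]
      ring
    · have hh' : ¬ t0⁻¹ ≤ t := fun h' => hh (inv_le_of_inv_le₀ ht h')
      rw [indicator_of_notMem (show t⁻¹ ∉ Iic t0 from hh),
        indicator_of_notMem (show t ∉ Ici t0⁻¹ from hh'), smul_zero]
  rw [setIntegral_congr_fun measurableSet_Ioi h3, setIntegral_indicator measurableSet_Ici]
  have h4 : Ioi (0 : ℝ) ∩ Ici t0⁻¹ = Ici t0⁻¹ := by
    apply inter_eq_right.2
    intro x hx
    have : 0 < t0⁻¹ := by positivity
    exact lt_of_lt_of_le this hx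
  rw [h4, integral_Ici_eq_integral_Ioi, integral_const_mul]

theorem mellinK {b : ℕ → ℂ} {m C R : ℝ} {r : ℕ} (hr : 1 ≤ r) (hR : 0 < R) (hb0 : b 0 = 0)
    (hm : 0 ≤ m)
    (hb : ∀ n : ℕ, 1 ≤ n → ‖b n‖ ≤ C * (n : ℝ) ^ m) {w : ℂ} (hw : w ≠ 0)
    (hfe : ∀ t : ℝ, 0 < t → ∑' n : ℕ, b n * (Real.exp (-(2 * Real.pi * n / R) / t) : ℂ) =
      w * (t : ℂ) ^ (2 * (r : ℤ)) * ∑' n : ℕ, (starRingEnd ℂ) (b n) *
        (Real.exp (-(2 * Real.pi * n / R) * t) : ℂ)) :
    ∃ F : ℂ → ℂ, Differentiable ℂ F ∧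
      (∀ s : ℂ, m + 2 < s.re → F s = ∑' n : ℕ, b n * (n : ℂ) ^ (-(s + ((r : ℂ) - 1 / 2)))) ∧
      ∀ X Y : ℝ, 0 < X → 0 < Y → X * Y = R ^ 2 / (4 * Real.pi ^ 2) →
        F (1 / 2) = ∑' n : ℕ, b n / (n : ℂ) ^ r * (Vk r (n / X) : ℂ) +
          w * ∑' n : ℕ, (starRingEnd ℂ) (b n) / (n : ℂ) ^ r * (Vk r (n / Y) : ℂ) := by
  have hpi := Real.pi_pos
  set c : ℝ := 2 * Real.pi / R with hc'
  have hc : 0 < c := by positivity
  have hr0 : (0 : ℝ) < r := by exact_mod_cast hr
  have hr1' : (1 : ℝ) ≤ r := by exact_mod_cast hr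
  have hb' : ∀ n : ℕ, 1 ≤ n → ‖(starRingEnd ℂ) (b n)‖ ≤ C * (n : ℝ) ^ m := by
    intro n hn; rw [RCLike.norm_conj]; exact hb n hn
  have hb0' : (starRingEnd ℂ) (b 0) = 0 := by rw [hb0, map_zero]
  have hrel : ∀ x : ℝ, 0 < x → Th b c (1 / x) =
      w * (x : ℂ) ^ (2 * (r : ℤ)) * Th (fun n => (starRingEnd ℂ) (b n)) c x := by
    intro x hx
    have h := hfe x hx
    rw [Th, Th]
    have e1 : ∀ n : ℕ, -(c * n) * (1 / x) = -(2 * Real.pi * n / R) / x := by
      intro n; rw [hc']; ring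
    have e2 : ∀ n : ℕ, -(c * n) * x = -(2 * Real.pi * n / R) * x := by
      intro n; rw [hc']; ring
    simp only [e1, e2]
    exact h
  let P : WeakFEPair ℂ :=
    { f := Th b c
      g := Th (fun n => (starRingEnd ℂ) (b n)) c
      k := 2 * (r : ℝ)
      ε := w
      f₀ := 0
      g₀ := 0
      hf_int := (continuousOn_Th hb0 hb hc).locallyIntegrableOn measurableSet_Ioi
      hg_int := (continuousOn_Th hb0' hb' hc).locallyIntegrableOn measurableSet_Ioi
      hk := by positivity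
      hε := hw
      h_feq := by
        intro x (hx : 0 < x)
        rw [hrel x hx, smul_eq_mul]
        congr 2
        rw [show (2 * (r : ℝ)) = ((2 * (r : ℤ) : ℤ) : ℝ) by push_cast; ring, Real.rpow_intCast,
          Complex.ofReal_zpow]
      hf_top := Th_isBigO hb0 hb hc
      hg_top := Th_isBigO hb0' hb' hc }
  have hP : IsStrongFEPair P := ⟨rfl, rfl⟩
  have hΛf : P.Λ = mellin (Th b c) := hP.Λ_eq
  have hcC : (c : ℂ) ≠ 0 := by exact_mod_cast hc.ne'
  set κ : ℂ := (r : ℂ) - 1 / 2 with hκ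
  let F : ℂ → ℂ := fun s => P.Λ (s + κ) * (c : ℂ) ^ (s + κ) * (Complex.Gamma (s + κ))⁻¹
  refine ⟨F, ?_, ?_, ?_⟩
  · -- differentiable
    have h1 : Differentiable ℂ (fun s : ℂ => P.Λ (s + κ)) :=
      hP.differentiable_Λ.comp (differentiable_id.add_const κ)
    have h2 : Differentiable ℂ (fun s : ℂ => (c : ℂ) ^ (s + κ)) := by
      intro s
      exact (DifferentiableAt.const_cpow (by fun_prop) (Or.inl hcC))
    have h3 : Differentiable ℂ (fun s : ℂ => (Complex.Gamma (s + κ))⁻¹) :=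
      Complex.differentiable_one_div_Gamma.comp (differentiable_id.add_const κ)
    exact (h1.mul h2).mul h3
  · -- Dirichlet series
    intro s hs
    set S : ℂ := s + κ with hS
    have hSre : S.re = s.re + (r - 1 / 2) := by rw [hS, hκ]; simp
    have hSm : m + 2 < S.re := by rw [hSre]; linarith
    have hSpos : 0 < S.re := by linarith
    have hG : Complex.Gamma S ≠ 0 := Complex.Gamma_ne_zero_of_re_pos hSpos
    have h1 := hasSum_mellin (a := b) (p := fun n : ℕ => c * n) (F := Th b c) (s := S)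
      (by
        intro n
        rcases Nat.eq_zero_or_pos n with rfl | hn
        · exact Or.inl hb0
        · right
          have : (0 : ℝ) < n := by exact_mod_cast hn
          positivity) hSpos
      (by
        intro t (ht : 0 < t)
        exact (summable_term hb0 hb hc ht).hasSum)
      (by
        have h2 : Summable (fun n : ℕ => |C| / c ^ S.re * (n : ℝ) ^ (m - S.re)) :=
          (Real.summable_nat_rpow.mpr (by linarith)).mul_left _
        refine Summable.of_nonneg_of_le (fun n => by positivity) (fun n => ?_) h2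
        rcases Nat.eq_zero_or_pos n with rfl | hn
        · rw [hb0, norm_zero, zero_div]; positivity
        · have hn' : (0 : ℝ) < n := by exact_mod_cast hn
          have h3 : ‖b n‖ ≤ |C| * (n : ℝ) ^ m :=
            (hb n hn).trans (mul_le_mul_of_nonneg_right (le_abs_self C) (by positivity))
          rw [Real.mul_rpow hc.le hn'.le, Real.rpow_sub hn', div_mul_div_comm]
          exact div_le_div_of_nonneg_right h3 (by positivity))
    have h2 := h1.tsum_eq
    have h3 : F s = (∑' n : ℕ, Complex.Gamma S * b n / ((c * n : ℝ) : ℂ) ^ S) * (c : ℂ) ^ S *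
        (Complex.Gamma S)⁻¹ := by
      simp only [F]
      rw [← hS, hΛf, ← h2]
    have hcs : (c : ℂ) ^ S ≠ 0 := by
      rw [Complex.cpow_def_of_ne_zero hcC]; exact Complex.exp_ne_zero _
    rw [h3, ← tsum_mul_right, ← tsum_mul_right]
    refine tsum_congr (fun n => ?_)
    rcases Nat.eq_zero_or_pos n with rfl | hn
    · rw [hb0]; simp
    · have hn' : (n : ℂ) ≠ 0 := by exact_mod_cast hn.ne'
      have hnS : (n : ℂ) ^ S ≠ 0 := by
        rw [Complex.cpow_def_of_ne_zero hn']; exact Complex.exp_ne_zero _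
      rw [Complex.ofReal_mul, Complex.mul_cpow_ofReal_nonneg hc.le (Nat.cast_nonneg n),
        Complex.cpow_neg]
      simp only [Complex.ofReal_natCast]
      field_simp
  · -- the central value
    intro X Y hX hY hXY
    have hc2 : c ^ 2 * (X * Y) = 1 := by
      rw [hXY, hc']
      field_simp
      ring
    set t0 : ℝ := 1 / (c * X) with ht0
    have ht0p : 0 < t0 := by positivity
    have hrr : ((r : ℂ) - 1) = ((r - 1 : ℕ) : ℂ) := by
      rw [Nat.cast_sub hr, Nat.cast_one]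
    have hGam : Complex.Gamma (r : ℂ) = ((r - 1).factorial : ℂ) := by
      have := Complex.Gamma_nat_eq_factorial (r - 1)
      rw [← hrr, sub_add_cancel] at this
      exact this
    have hfac : ((r - 1).factorial : ℂ) ≠ 0 := by
      exact_mod_cast (Nat.factorial_ne_zero (r - 1))
    have e1 : F (1 / 2) = (c : ℂ) ^ r / ((r - 1).factorial : ℂ) *
        ∫ t in Ioi (0 : ℝ), (t : ℂ) ^ (r - 1) * Th b c t := by
      simp only [F]
      rw [hκ, show (1 / 2 + ((r : ℂ) - 1 / 2) : ℂ) = r by ring, Complex.cpow_natCast, hGam, hΛf,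
        mellin]
      simp only [hrr, Complex.cpow_natCast, smul_eq_mul]
      field_simp
    have hInt : IntegrableOn (fun t : ℝ => (t : ℂ) ^ (r - 1) * Th b c t) (Ioi 0) := by
      have h1 := (hP.hasMellin (r : ℂ)).1
      have h2 : IntegrableOn (fun t : ℝ => (t : ℂ) ^ ((r : ℂ) - 1) • Th b c t) (Ioi 0) := h1
      simpa only [hrr, Complex.cpow_natCast, smul_eq_mul] using h2
    have e2 : ∫ t in Ioi (0 : ℝ), (t : ℂ) ^ (r - 1) * Th b c t =
        (∫ t in Ioc (0 : ℝ) t0, (t : ℂ) ^ (r - 1) * Th b c t) +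
          ∫ t in Ioi t0, (t : ℂ) ^ (r - 1) * Th b c t := by
      rw [← Ioc_union_Ioi_eq_Ioi ht0p.le]
      refine setIntegral_union ?_ measurableSet_Ioi (hInt.mono_set Ioc_subset_Ioi_self)
        (hInt.mono_set (Ioi_subset_Ioi ht0p.le))
      rw [Set.disjoint_left]
      intro x hx hx'
      exact absurd hx.2 (not_le.2 hx')
    have e3 : ∫ t in Ioc (0 : ℝ) t0, (t : ℂ) ^ (r - 1) * Th b c t =
        w * ∫ t in Ioi t0⁻¹, (t : ℂ) ^ (r - 1) * Th (fun n => (starRingEnd ℂ) (b n)) c t := by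
      refine int_low _ _ w t0 ht0p r hr fun t ht => ?_
      rw [← one_div]
      exact hrel t ht
    have hcX : t0⁻¹ = c * X := by rw [ht0]; field_simp
    have hterm : ∀ (z : ℂ) (n : ℕ) (T Z : ℝ), (n = 0 → z = 0) → c * n * T = n / Z →
        (c : ℂ) ^ r / ((r - 1).factorial : ℂ) *
          (z * ((((r - 1).factorial : ℝ) / (c * n) ^ r * Vk r (c * n * T) : ℝ) : ℂ)) =
        z / (n : ℂ) ^ r * (Vk r (n / Z) : ℂ) := by
      intro z n T Z hz hT
      rcases Nat.eq_zero_or_pos n with rfl | hn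
      · rw [hz rfl]; simp
      · have hn' : (n : ℂ) ≠ 0 := by exact_mod_cast hn.ne'
        rw [hT]
        push_cast
        rw [mul_pow]
        field_simp
    rw [e1, e2, e3, int_Th hb0 hb hc ht0p hr, int_Th hb0' hb' hc (inv_pos.2 ht0p) hr, mul_add,
      add_comm, mul_left_comm, ← tsum_mul_left, ← tsum_mul_left]
    congr 1
    · refine tsum_congr fun n => hterm (b n) n t0 X (fun h => by rw [h, hb0]) ?_
      rw [ht0]
      field_simp
    · congr 1
      refine tsum_congr fun n => hterm _ n t0⁻¹ Y (fun h => by rw [h, hb0']) ?_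
      rw [hcX]
      have h2 : c * (c * X) = 1 / Y := by
        rw [eq_div_iff hY.ne']
        linarith
      calc c * n * (c * X) = n * (c * (c * X)) := by ring
        _ = _ := by rw [h2]; ring

end Pool.Agent.W45.CYK

open UpperHalfPlane MatrixGroups CongruenceSubgroup ZMod

namespace Pool.Agent.W45.CYK

open Pool.Agent.W440.TW
open Pool.Agent.W378.CY (twist_explicit root_number)

theorem afe : Pool.Agent.W192.CY.K_AFE := by
  intro r hr N _ f ε hf q _ χ hco hpr
  have hNn : 0 < N := Nat.pos_of_ne_zero (NeZero.ne N)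
  have hN : (0 : ℝ) < N := by exact_mod_cast hNn
  have hq : (0 : ℝ) < q := by exact_mod_cast Nat.pos_of_ne_zero (NeZero.ne q)
  have hsN : 0 < Real.sqrt N := Real.sqrt_pos.2 hN
  have hk1 : (1 : ℤ) ≤ 2 * (r : ℤ) := by omega
  obtain ⟨C, hC⟩ := W388.coeff_bound f hk1
  set R : ℝ := Real.sqrt N * q with hR
  have hRp : 0 < R := by positivity
  set w : ℂ := (ε : ℂ) * χ (N : ZMod q) * gaussSum χ (stdAddChar (N := q)) ^ 2 / q with hw
  have hw0 : w ≠ 0 := by
    have h1 : (ε : ℂ) ≠ 0 := by rcases hf.sign with h | h <;> simp [h]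
    have h2 : χ (N : ZMod q) ≠ 0 := by
      have hu : IsUnit (N : ZMod q) := (ZMod.isUnit_iff_coprime N q).2 hco.symm
      exact (hu.map χ).ne_zero
    have h3 := gauss_ne_zero χ hpr
    have h4 : (q : ℂ) ≠ 0 := Nat.cast_ne_zero.2 (NeZero.ne q)
    rw [hw]
    exact div_ne_zero (mul_ne_zero (mul_ne_zero h1 h2) (pow_ne_zero 2 h3)) h4
  obtain ⟨F, hFd, hFs, hFc⟩ := mellinK (b := fun n => χ (n : ZMod q) * (qExpansion 1 f).coeff n)
    (m := ((2 * (r : ℤ) : ℤ) : ℝ) / 2) (C := C) hr hRp (by rw [W388.coeff_zero f, mul_zero])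
    (by push_cast; positivity)
    (fun n hn => by
      rw [norm_mul]
      calc ‖χ (n : ZMod q)‖ * ‖(qExpansion 1 f).coeff n‖ ≤ 1 * ‖(qExpansion 1 f).coeff n‖ :=
            mul_le_mul_of_nonneg_right (χ.norm_le_one _) (norm_nonneg _)
        _ ≤ _ := by rw [one_mul]; exact hC n hn) hw0
    (fun t ht => by
      have h := twist_explicit N (2 * (r : ℤ)) f ε hf q χ hpr hco t ht
      rw [root_number q χ hpr] at h
      exact h)
  have hrs := W388.p_rs N (2 * (r : ℤ)) hk1 f ε hf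
  have hH := W388.heckeSeq_lamf hf
  obtain ⟨A1, hA1, d1, d2, d3⟩ := W388.p_dir N hNn (W388.lamf f) hH hrs
  have hsum : ∀ s : ℂ, 1 < s.re →
      Summable (fun n : ℕ => ‖χ (n : ZMod q) * (W388.lamf f n : ℂ) * (n : ℂ) ^ (-s)‖) := by
    intro s hs
    exact (d3 q χ (fun s => ∑' n : ℕ, χ (n : ZMod q) * (W388.lamf f n : ℂ) * (n : ℂ) ^ (-s))
      (fun _ _ => rfl)).1 s hs
  refine ⟨F, hFd, fun s hs => ?_, fun X Y hX hY hXY => ?_⟩
  · refine W388.ext_series F hFd (fun n => χ (n : ZMod q) * (W388.lamf f n : ℂ)) ?_ hsum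
      (((2 * (r : ℤ) : ℤ) : ℝ) / 2 + 2) (fun s hs => ?_) s hs
    · rw [hH.zero]
      simp
    · rw [hFs s hs]
      refine tsum_congr fun n => ?_
      rcases Nat.eq_zero_or_pos n with h0 | h0
      · subst h0
        rw [W388.coeff_zero f, hH.zero]
        simp
      · have hn0 : (n : ℂ) ≠ 0 := by exact_mod_cast h0.ne'
        rw [W388.lamf_eq hf n h0.ne']
        have : (n : ℂ) ^ (-(s + ((r : ℂ) - 1 / 2))) =
            (n : ℂ) ^ (-s) * (n : ℂ) ^ (-((((2 * (r : ℤ) : ℤ) : ℂ) - 1) / 2)) := by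
          rw [← Complex.cpow_add _ _ hn0]
          congr 1; push_cast; ring
        rw [this, Complex.cpow_neg (n : ℂ) ((((2 * (r : ℤ) : ℤ) : ℂ) - 1) / 2)]
        have h1 : (n : ℂ) ^ ((((2 * (r : ℤ) : ℤ) : ℂ) - 1) / 2) ≠ 0 := by
          rw [Complex.cpow_def_of_ne_zero hn0]
          exact Complex.exp_ne_zero _
        field_simp
  · have hXY' : X * Y = R ^ 2 / (4 * Real.pi ^ 2) := by
      rw [hXY, hR, mul_pow, Real.sq_sqrt hN.le]
    rw [hFc X Y hX hY hXY']
    have hterm : ∀ (z : ℂ) (n : ℕ) (v : ℂ), z * (((qExpansion 1 f).coeff n).re : ℂ) /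
        (n : ℂ) ^ r * v =
        z * ((((qExpansion 1 f).coeff n).re / (n : ℝ) ^ (r - 1) : ℝ) : ℂ) / n * v := by
      intro z n v
      rcases Nat.eq_zero_or_pos n with rfl | hn
      · rw [W388.coeff_zero f]; simp
      · have hn' : (n : ℂ) ≠ 0 := by exact_mod_cast hn.ne'
        have h1 : (n : ℂ) ^ r = (n : ℂ) ^ (r - 1) * n := by
          rw [← pow_succ]
          congr 1
          omega
        rw [h1]
        push_cast
        field_simp
    congr 1
    · refine tsum_congr fun n => ?_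
      rw [← hterm, ← W388.coeff_real hf n]
    · congr 1
      refine tsum_congr fun n => ?_
      rw [← hterm, map_mul, W388.coeff_real hf n, Complex.conj_ofReal]
      simp only [Complex.ofReal_re]

end Pool.Agent.W45.CYK
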